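import Mathlib

namespace Pool.Agent.Results.MP_55e6a3_gt.PerfectImage

open Set

set_option linter.unusedSectionVars false

universe u v

/-- The order of the point x in the family W: the number of members of W that contain x. -/
noncomputable def ord {X : Type u} (x : X) (W : Set (Set X)) : ℕ∞ :=
  {B : Set X | B ∈ W ∧ x ∈ B}.encard

/-- Weakly theta-refinable spaces, with no separation axiom. -/
def WeaklyThetaRefinable (X : Type u) [TopologicalSpace X] : Prop :=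
  ∀ U : Set (Set X), (∀ A ∈ U, IsOpen A) → ⋃₀ U = univ →
    ∃ V : ℕ → Set (Set X),
      (∀ n, ∀ B ∈ V n, IsOpen B ∧ ∃ A ∈ U, B ⊆ A) ∧
      ∀ x, ∃ n, 0 < ord x (V n) ∧ ord x (V n) < ⊤

section aux

variable {X : Type u} {Y : Type v} [TopologicalSpace X] [TopologicalSpace Y]

/-- the members of W containing x -/
def star (W : Set (Set X)) (x : X) : Set (Set X) := {B : Set X | B ∈ W ∧ x ∈ B}

lemma isOpen_ord_gt (W : Set (Set X)) (hW : ∀ B ∈ W, IsOpen B) (k : ℕ) :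
    IsOpen {x : X | ((k : ℕ∞) < (star W x).encard)} := by
  rw [isOpen_iff_forall_mem_open]
  intro x hx
  have h1 : ((k + 1 : ℕ) : ℕ∞) ≤ (star W x).encard := by
    have := Order.add_one_le_of_lt (show (k : ℕ∞) < (star W x).encard from hx)
    simpa using this
  obtain ⟨T, hT, hTc⟩ := Set.exists_subset_encard_eq h1
  have hfin : T.Finite := by
    apply Set.finite_of_encard_eq_coe hTc
  refine ⟨⋂₀ T, ?_, hfin.isOpen_sInter (fun B hB => hW B (hT hB).1), ?_⟩
  · intro z hz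
    have h2 : T ⊆ star W z := fun B hB => ⟨(hT hB).1, hz B hB⟩
    have h3 := Set.encard_le_encard h2
    rw [hTc] at h3
    show (k : ℕ∞) < _
    refine lt_of_lt_of_le ?_ h3
    exact_mod_cast Nat.lt_succ_self k
  · intro B hB
    exact (hT hB).2

/-- existence of a good pair for a compact set -/
lemma exists_pair (V : ℕ → Set (Set X)) (hV : ∀ n, ∀ B ∈ V n, IsOpen B)
    (hx : ∀ x, ∃ n, 0 < (star (V n) x).encard ∧ (star (V n) x).encard < ⊤)
    (K : Set X) (hK : IsCompact K) (hne : K.Nonempty) :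
    ∃ (M : Finset ℕ) (n : ℕ), (∀ x ∈ K, (∀ m ∈ M, x ∉ ⋃₀ V m) → x ∈ ⋃₀ V n) ∧
      ∃ x ∈ K, (∀ m ∈ M, x ∉ ⋃₀ V m) ∧ (star (V n) x).encard < ⊤ := by
  have hG : ∀ n, IsOpen (⋃₀ V n) := fun n => isOpen_sUnion (hV n)
  -- a maximal index set
  obtain ⟨I, hI⟩ := zorn_subset {I : Set ℕ | ∃ x ∈ K, ∀ i ∈ I, x ∉ ⋃₀ V i} (by
    intro c hc hchain
    rcases c.eq_empty_or_nonempty with rfl | hcne
    · obtain ⟨x, hxK⟩ := hne
      exact ⟨∅, ⟨x, hxK, by simp⟩, by simp⟩
    · refine ⟨⋃₀ c, ?_, fun s hs => subset_sUnion_of_mem hs⟩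
      by_contra hcon
      have hcov : K ⊆ ⋃ i : (⋃₀ c : Set ℕ), ⋃₀ V i := by
        intro x hxK
        by_contra hx2
        apply hcon
        refine ⟨x, hxK, fun i hi hxi => hx2 ?_⟩
        exact mem_iUnion.2 ⟨⟨i, hi⟩, hxi⟩
      obtain ⟨F, hF⟩ := hK.elim_finite_subcover (fun i : (⋃₀ c : Set ℕ) => ⋃₀ V i)
        (fun i => hG i) hcov
      -- F is contained in a member of the chain
      have hmem : ∃ s ∈ c, ∀ i ∈ F, (i : ℕ) ∈ s := by
        have := DirectedOn.exists_mem_subset_of_finset_subset_biUnion (α := ℕ)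
          (f := fun s : Set ℕ => s) (c := c) hcne hchain.directedOn
          (s := F.image Subtype.val) (by
            intro i hi
            simp only [Finset.coe_image, mem_image, Finset.mem_coe] at hi
            obtain ⟨j, hj, rfl⟩ := hi
            obtain ⟨s, hs, hjs⟩ := j.2
            exact mem_biUnion hs hjs)
        obtain ⟨s, hs, hsub⟩ := this
        refine ⟨s, hs, fun i hi => hsub ?_⟩
        simp only [Finset.coe_image, mem_image, Finset.mem_coe]
        exact ⟨i, hi, rfl⟩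
      obtain ⟨s, hs, hsF⟩ := hmem
      obtain ⟨x, hxK, hxs⟩ := hc hs
      have := hF hxK
      simp only [mem_iUnion] at this
      obtain ⟨i, hi, hxi⟩ := this
      exact hxs i (hsF i hi) hxi)
  obtain ⟨x, hxK, hxI⟩ := hI.prop
  obtain ⟨n, hn0, hn1⟩ := hx x
  have hxn : x ∈ ⋃₀ V n := by
    obtain ⟨B, hB⟩ := Set.encard_pos.1 hn0
    exact ⟨B, hB.1, hB.2⟩
  have hnI : n ∉ I := fun h => hxI n h hxn
  have hcov : K ⊆ ⋃ i : (insert n I : Set ℕ), ⋃₀ V i := by
    intro z hz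
    by_contra hcon
    have hmem : insert n I ∈ {I : Set ℕ | ∃ x ∈ K, ∀ i ∈ I, x ∉ ⋃₀ V i} := by
      refine ⟨z, hz, fun i hi hzi => hcon ?_⟩
      exact mem_iUnion.2 ⟨⟨i, hi⟩, hzi⟩
    have := hI.le_of_ge hmem (subset_insert n I)
    exact hnI (this (mem_insert n I))
  obtain ⟨F, hF⟩ := hK.elim_finite_subcover (fun i : (insert n I : Set ℕ) => ⋃₀ V i)
        (fun i => hG i) hcov
  refine ⟨(F.image Subtype.val).erase n, n, ?_, x, hxK, ?_, hn1⟩
  · intro z hz hzM
    have := hF hz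
    simp only [mem_iUnion] at this
    obtain ⟨i, hi, hzi⟩ := this
    by_cases hin : (i : ℕ) = n
    · rw [hin] at hzi; exact hzi
    · exact absurd hzi (hzM i (by
        rw [Finset.mem_erase]
        exact ⟨hin, Finset.mem_image_of_mem _ hi⟩))
  · intro m hm
    rw [Finset.mem_erase] at hm
    obtain ⟨hmn, hm⟩ := hm
    rw [Finset.mem_image] at hm
    obtain ⟨i, hi, rfl⟩ := hm
    rcases i.2 with h | h
    · exact absurd h hmn
    · exact hxI _ h

/-- the sets used in the fibre over y -/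
def WW (f : X → Y) (V : ℕ → Set (Set X)) (M : Finset ℕ) (n k : ℕ) (y : Y) : Set (Set (Set X)) :=
  {w | ∃ x, f x = y ∧ (∀ m ∈ M, x ∉ ⋃₀ V m) ∧ star (V n) x = w ∧ w.encard = k}

/-- open neighbourhood of the reduced fibre determined by a family of finite families -/
def Gs (V : ℕ → Set (Set X)) (M : Finset ℕ) (n k : ℕ) (Q : Set (Set (Set X))) : Set X :=
  {x | ∃ m ∈ M, x ∈ ⋃₀ V m} ∪ {x | ((k : ℕ∞) < (star (V n) x).encard)} ∪
    {x | ∃ w ∈ Q, ∀ B ∈ w, x ∈ B}

def SS (f : X → Y) (V : ℕ → Set (Set X)) (M : Finset ℕ) (n k j : ℕ) : Set Y :=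
  {y | (∀ x, f x = y → (∀ m ∈ M, x ∉ ⋃₀ V m) → (k : ℕ∞) ≤ (star (V n) x).encard) ∧
    (WW f V M n k y).encard = j ∧ 1 ≤ j ∧ 1 ≤ k}

lemma isOpen_Gs (V : ℕ → Set (Set X)) (hV : ∀ n, ∀ B ∈ V n, IsOpen B) (M : Finset ℕ) (n k : ℕ)
    (Q : Set (Set (Set X))) (hQ : ∀ w ∈ Q, w.Finite ∧ ∀ B ∈ w, IsOpen B) :
    IsOpen (Gs V M n k Q) := by
  refine IsOpen.union (IsOpen.union ?_ ?_) ?_
  · have : {x | ∃ m ∈ M, x ∈ ⋃₀ V m} = ⋃ m ∈ M, ⋃₀ V m := by
      ext x; simp
    rw [this]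
    exact isOpen_biUnion (fun m _ => isOpen_sUnion (hV m))
  · exact isOpen_ord_gt (V n) (hV n) k
  · have : {x : X | ∃ w ∈ Q, ∀ B ∈ w, x ∈ B} = ⋃ w ∈ Q, ⋂₀ w := by
      ext x; simp
    rw [this]
    exact isOpen_biUnion (fun w hw => (hQ w hw).1.isOpen_sInter (hQ w hw).2)

lemma WW_good (f : X → Y) (V : ℕ → Set (Set X)) (hV : ∀ n, ∀ B ∈ V n, IsOpen B)
    (M : Finset ℕ) (n k : ℕ) (y : Y) :
    ∀ w ∈ WW f V M n k y, w.Finite ∧ ∀ B ∈ w, IsOpen B := by
  rintro w ⟨x, -, -, rfl, hk⟩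
  exact ⟨Set.finite_of_encard_eq_coe hk, fun B hB => hV n B hB.1⟩

lemma WW_eq (f : X → Y) (V : ℕ → Set (Set X)) 
    (M : Finset ℕ) (n k j : ℕ) (y y' : Y) (hy : y ∈ SS f V M n k j) (hy' : y' ∈ SS f V M n k j)
    (h : ∀ x, f x = y' → x ∈ Gs V M n k (WW f V M n k y)) :
    WW f V M n k y' = WW f V M n k y := by
  have hsub : WW f V M n k y' ⊆ WW f V M n k y := by
    rintro w ⟨x, hfx, hxM, rfl, hk⟩
    rcases h x hfx with (h1 | h1) | h1
    · obtain ⟨m, hm, hxm⟩ := h1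
      exact absurd hxm (hxM m hm)
    · have h2 : (k : ℕ∞) < (star (V n) x).encard := h1
      rw [hk] at h2
      exact absurd h2 (lt_irrefl _)
    · obtain ⟨w, hw, hxw⟩ := h1
      have hw' := hw
      obtain ⟨z, -, -, hzw, hwk⟩ := hw'
      have hsub2 : w ⊆ star (V n) x := by
        intro B hB
        refine ⟨?_, hxw B hB⟩
        rw [← hzw] at hB
        exact hB.1
      have : w = star (V n) x := by
        apply Set.Finite.eq_of_subset_of_encard_le'
          (Set.finite_of_encard_eq_coe hk) hsub2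
        rw [hk, hwk]
      rw [← this]; exact hw
  apply Set.Finite.eq_of_subset_of_encard_le' (Set.finite_of_encard_eq_coe hy.2.1) hsub
  rw [hy.2.1, hy'.2.1]

end aux

theorem result (X : Type u) (Y : Type v) [TopologicalSpace X] [TopologicalSpace Y]
    (f : X → Y) (hcont : Continuous f) (hsurj : Function.Surjective f) (hclosed : IsClosedMap f)
    (hcomp : ∀ y : Y, IsCompact (f ⁻¹' {y})) (hX : WeaklyThetaRefinable X) :
    WeaklyThetaRefinable Y := by
  classical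
  intro U hU hUc
  obtain ⟨V, hV, hVx⟩ := hX ((fun A => f ⁻¹' A) '' U)
    (by rintro _ ⟨A, hA, rfl⟩; exact (hU A hA).preimage hcont)
    (by
      rw [eq_univ_iff_forall]
      intro x
      have : f x ∈ ⋃₀ U := by rw [hUc]; trivial
      obtain ⟨A, hA, hxA⟩ := this
      exact ⟨f ⁻¹' A, ⟨A, hA, rfl⟩, hxA⟩)
  have hVo : ∀ n, ∀ B ∈ V n, IsOpen B := fun n B hB => (hV n B hB).1
  have hVr : ∀ n, ∀ B ∈ V n, ∃ A ∈ U, B ⊆ f ⁻¹' A := by
    intro n B hB
    obtain ⟨_, ⟨A, hA, rfl⟩, hBA⟩ := (hV n B hB).2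
    exact ⟨A, hA, hBA⟩
  -- choice of a member of U
  have hch : ∀ Q : Set (Set (Set X)), ∃ A : Set Y,
      ((∃ n, ∃ w ∈ Q, ∃ B ∈ w, B ∈ V n) → A ∈ U ∧ ∃ w ∈ Q, ∃ B ∈ w, B ⊆ f ⁻¹' A) := by
    intro Q
    by_cases h : ∃ n, ∃ w ∈ Q, ∃ B ∈ w, B ∈ V n
    · obtain ⟨n, w, hw, B, hB, hBn⟩ := h
      obtain ⟨A, hA, hBA⟩ := hVr n B hBn
      exact ⟨A, fun _ => ⟨hA, w, hw, B, hB, hBA⟩⟩
    · exact ⟨∅, fun h' => absurd h' h⟩
  choose Uc hUc2 using hch
  -- the neighbourhoods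
  let O : Finset ℕ → ℕ → ℕ → Set (Set (Set X)) → Set Y := fun M n k Q =>
    {y | ∀ x, f x = y → x ∈ Gs V M n k Q}
  have hOopen : ∀ M n k Q, (∀ w ∈ Q, w.Finite ∧ ∀ B ∈ w, IsOpen B) → IsOpen (O M n k Q) := by
    intro M n k Q hQ
    have h1 : O M n k Q = (f '' (Gs V M n k Q)ᶜ)ᶜ := by
      ext y
      simp only [O, mem_compl_iff, mem_image, not_exists, not_and, Set.mem_ofPred_eq]
      constructor
      · intro h x hx hfx
        exact hx (h x hfx)
      · intro h x hfx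
        by_contra hx
        exact h x hx hfx
    rw [h1]
    exact (hclosed _ (isOpen_Gs V hVo M n k Q hQ).isClosed_compl).isOpen_compl
  -- facts about points in SS
  have hfact : ∀ M n k j y, y ∈ SS f V M n k j →
      Uc (WW f V M n k y) ∈ U ∧ y ∈ Uc (WW f V M n k y) ∧ y ∈ O M n k (WW f V M n k y) := by
    intro M n k j y hy
    obtain ⟨h1, h2, h3, h4⟩ := hy
    have hne : (WW f V M n k y).Nonempty := by
      rw [← Set.encard_pos, h2]; exact_mod_cast h3
    have hwne : ∀ w ∈ WW f V M n k y, ∃ B ∈ w, B ∈ V n := by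
      rintro w ⟨x, hfx, hxM, rfl, hk⟩
      have : (star (V n) x).Nonempty := by
        rw [← Set.encard_pos, hk]; exact_mod_cast h4
      obtain ⟨B, hB⟩ := this
      exact ⟨B, hB, hB.1⟩
    have hpre : ∃ n', ∃ w ∈ WW f V M n k y, ∃ B ∈ w, B ∈ V n' := by
      obtain ⟨w, hw⟩ := hne
      obtain ⟨B, hB, hBn⟩ := hwne w hw
      exact ⟨n, w, hw, B, hB, hBn⟩
    obtain ⟨hA, w, hw, B, hB, hBA⟩ := hUc2 _ hpre
    refine ⟨hA, ?_, ?_⟩
    · obtain ⟨x, hfx, hxM, rfl, hk⟩ := hw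
      have h5 : f x ∈ Uc (WW f V M n k y) := hBA hB.2
      rw [hfx] at h5
      exact h5
    · intro x hfx
      by_cases hxM : ∀ m ∈ M, x ∉ ⋃₀ V m
      · have hk := h1 x hfx hxM
        rcases hk.lt_or_eq with h | h
        · exact Or.inl (Or.inr h)
        · refine Or.inr ⟨star (V n) x, ⟨x, hfx, hxM, rfl, h.symm⟩, fun B hB => hB.2⟩
      · push Not at hxM
        exact Or.inl (Or.inl hxM)
  -- every point is in some SS
  have hcover : ∀ y, ∃ M n k j, y ∈ SS f V M n k j := by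
    intro y
    have hne : (f ⁻¹' {y}).Nonempty := by
      obtain ⟨x, hx⟩ := hsurj y
      exact ⟨x, hx⟩
    obtain ⟨M, n, hMn, x0, hx0, hx0M, hx0n⟩ :=
      exists_pair V hVo hVx (f ⁻¹' {y}) (hcomp y) hne
    -- minimal k
    have hex : ∃ k : ℕ, ∃ x, f x = y ∧ (∀ m ∈ M, x ∉ ⋃₀ V m) ∧ (star (V n) x).encard = k := by
      obtain ⟨k, hk⟩ := ENat.ne_top_iff_exists.1 hx0n.ne
      exact ⟨k, x0, hx0, hx0M, hk.symm⟩
    obtain ⟨x1, hx1, hx1M, hx1k⟩ := Nat.find_spec hex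
    set k := Nat.find hex with hkdef
    have hmin : ∀ x, f x = y → (∀ m ∈ M, x ∉ ⋃₀ V m) → (k : ℕ∞) ≤ (star (V n) x).encard := by
      intro x hfx hxM
      by_contra hlt
      push Not at hlt
      obtain ⟨l, hl⟩ := ENat.ne_top_iff_exists.1 (ne_top_of_lt hlt)
      rw [← hl] at hlt
      have hlt' : l < k := by exact_mod_cast hlt
      exact Nat.find_min hex hlt' ⟨x, hfx, hxM, hl.symm⟩
    have hk1 : 1 ≤ k := by
      have hx1n := hMn x1 hx1 hx1M
      obtain ⟨B, hB, hxB⟩ := hx1n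
      have hpos : 0 < (star (V n) x1).encard := Set.encard_pos.2 ⟨B, hB, hxB⟩
      rw [hx1k] at hpos
      exact_mod_cast hpos
    -- finiteness of WW
    have hfin : (WW f V M n k y).Finite := by
      -- compact set
      have hLc : IsCompact ((f ⁻¹' {y}) ∩ ({x | ∃ m ∈ M, x ∈ ⋃₀ V m} ∪
          {x | ((k : ℕ∞) < (star (V n) x).encard)})ᶜ) := by
        apply (hcomp y).inter_right
        apply IsOpen.isClosed_compl
        refine IsOpen.union ?_ ?_
        · have : {x | ∃ m ∈ M, x ∈ ⋃₀ V m} = ⋃ m ∈ M, ⋃₀ V m := by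
            ext x; simp
          rw [this]
          exact isOpen_biUnion (fun m _ => isOpen_sUnion (hVo m))
        · exact isOpen_ord_gt (V n) (hVo n) k
      have hWg := WW_good f V hVo M n k y
      obtain ⟨F, hF⟩ := hLc.elim_finite_subcover
        (fun w : WW f V M n k y => ⋂₀ (w : Set (Set X)))
        (fun w => (hWg w w.2).1.isOpen_sInter (hWg w w.2).2) (by
          rintro x ⟨hfx, hx⟩
          rw [mem_compl_iff, mem_union, not_or] at hx
          obtain ⟨hxM, hxk⟩ := hx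
          have hxM' : ∀ m ∈ M, x ∉ ⋃₀ V m := by
            intro m hm hxm
            exact hxM ⟨m, hm, hxm⟩
          have hk' := hmin x hfx hxM'
          have hk'' : (star (V n) x).encard = k := by
            apply le_antisymm _ hk'
            exact not_lt.1 hxk
          exact mem_iUnion.2 ⟨⟨star (V n) x, ⟨x, hfx, hxM', rfl, hk''⟩⟩, fun B hB => hB.2⟩)
      have hsub : WW f V M n k y ⊆ ((F.image Subtype.val : Finset (Set (Set X))) : Set (Set (Set X))) := by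
        intro w hw
        obtain ⟨x, hfx, hxM, hxw, hwk⟩ := hw
        have hxL : x ∈ ((f ⁻¹' {y}) ∩ ({x | ∃ m ∈ M, x ∈ ⋃₀ V m} ∪
          {x | ((k : ℕ∞) < (star (V n) x).encard)})ᶜ) := by
          refine ⟨hfx, ?_⟩
          rw [mem_compl_iff, mem_union, not_or]
          refine ⟨?_, ?_⟩
          · rintro ⟨m, hm, hxm⟩
            exact hxM m hm hxm
          · intro h
            have h' : (k : ℕ∞) < (star (V n) x).encard := h
            rw [hxw, hwk] at h'
            exact lt_irrefl _ h'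
        have := hF hxL
        simp only [mem_iUnion] at this
        obtain ⟨w', hw'F, hxw'⟩ := this
        have hw'2 := w'.2
        obtain ⟨z, -, -, hzw', hw'k⟩ := hw'2
        have hsub2 : (w' : Set (Set X)) ⊆ w := by
          intro B hB
          rw [← hxw]
          refine ⟨?_, hxw' B hB⟩
          rw [← hzw'] at hB
          exact hB.1
        have heq : (w' : Set (Set X)) = w := by
          apply Set.Finite.eq_of_subset_of_encard_le' (Set.finite_of_encard_eq_coe hwk) hsub2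
          rw [hw'k, hwk]
        rw [← heq]
        simp only [Finset.coe_image, mem_image, Finset.mem_coe]
        exact ⟨w', hw'F, rfl⟩
      exact (Finset.finite_toSet _).subset hsub
    obtain ⟨j, hj⟩ := ENat.ne_top_iff_exists.1 (Set.encard_ne_top_iff.2 hfin)
    refine ⟨M, n, k, j, hmin, hj.symm, ?_, hk1⟩
    have hne2 : (WW f V M n k y).Nonempty := ⟨star (V n) x1, x1, hx1, hx1M, rfl, hx1k⟩
    have := Set.encard_pos.2 hne2
    rw [← hj] at this
    exact_mod_cast this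
  -- the refinement
  let W : Finset ℕ × ℕ × ℕ × ℕ → Set (Set Y) := fun p =>
    {A | ∃ y ∈ SS f V p.1 p.2.1 p.2.2.1 p.2.2.2,
      A = O p.1 p.2.1 p.2.2.1 (WW f V p.1 p.2.1 p.2.2.1 y) ∩ Uc (WW f V p.1 p.2.1 p.2.2.1 y)}
  obtain ⟨e, he⟩ := exists_surjective_nat (Finset ℕ × ℕ × ℕ × ℕ)
  refine ⟨fun i => W (e i), ?_, ?_⟩
  · rintro i A ⟨y, hy, rfl⟩
    obtain ⟨h1, -, -⟩ := hfact _ _ _ _ y hy
    refine ⟨(hOopen _ _ _ _ (WW_good f V hVo _ _ _ y)).inter (hU _ h1), _, h1, inter_subset_right⟩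
  · intro y
    obtain ⟨M, n, k, j, hy⟩ := hcover y
    obtain ⟨i, hi⟩ := he (M, n, k, j)
    refine ⟨i, ?_⟩
    have hsing : {B : Set Y | B ∈ W (e i) ∧ y ∈ B} =
        {O M n k (WW f V M n k y) ∩ Uc (WW f V M n k y)} := by
      rw [hi]
      ext A
      simp only [Set.mem_ofPred_eq, mem_singleton_iff]
      constructor
      · rintro ⟨⟨y', hy', rfl⟩, hyA⟩
        have := WW_eq f V M n k j y' y hy' hy hyA.1
        show O M n k (WW f V M n k y') ∩ Uc (WW f V M n k y') = _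
        rw [this]
      · rintro rfl
        obtain ⟨h1, h2, h3⟩ := hfact _ _ _ _ y hy
        exact ⟨⟨y, hy, rfl⟩, h3, h2⟩
    show 0 < ({B : Set Y | B ∈ W (e i) ∧ y ∈ B}).encard ∧
      ({B : Set Y | B ∈ W (e i) ∧ y ∈ B}).encard < ⊤
    rw [hsing, Set.encard_singleton]
    exact ⟨by norm_num, by simp⟩

end Pool.Agent.Results.MP_55e6a3_gt.PerfectImage
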